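import Mathlib
import Pool.Agent.R661.ScarfExt

/-! # The Scarf complex of a power of an extremal ideal need not support a resolution

For all `q ≥ 6` and `r ≥ 5` and every field the Scarf complex of the power `E_q ^ r` of the extremal
ideal `E_q` does not support a free resolution of `E_q ^ r`.  This answers the question (for all
`q ≥ 5`, `r ≥ 4`) in the negative.

The definitions (in `Pool.Agent.R661.ScarfGen` and `Pool.Agent.R661.ScarfExt`):
* `Var q`: the nonempty subsets `A` of `Fin q`; `x_A` is `MvPolynomial.X A`.
* `Vtx q r`: the `a : Fin q → ℕ` with sum `r`, with the lexicographic linear order (for the signs).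
* `genExp a`: the exponent vector of `ε ^ a = ∏ i, (∏ A ∋ i, x_A) ^ (a i)`.
* `label m σ`: the exponent vector of the least common multiple of the monomials of the face `σ`.
* `scarf m`: the faces `σ` such that no other face has the same label.
* `bdry k m`: the differential `e_σ ↦ ∑ v ∈ σ, ± (m_σ / m_(σ ∖ v)) e_(σ ∖ v)`, where `e_∅` spans the
  ring, so that `e_{v} ↦ x ^ (m v)`.
* `SupportsResolution k m Δ`: the complex of free modules on the nonempty faces of `Δ`, augmented
  onto the ideal generated by the monomials `x ^ (m v)`, is exact. -/

set_option autoImplicit false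

namespace Pool.Agent.Results.MP_0a8151_al.ScarfFails

open Pool.Agent.R661.Scarf

theorem monomial_genExp (k : Type*) [Field k] {q r : ℕ} (a : Vtx q r) :
    MvPolynomial.monomial (genExp a) (1 : k) =
      ∏ i, (∏ A : Var q with i ∈ A.1, MvPolynomial.X A) ^ a.1 i := by
  unfold genExp
  rw [MvPolynomial.monomial_sum_index, map_one, one_mul]
  apply Finset.prod_congr rfl
  intro i _
  have h := MvPolynomial.monomial_pow (s := epsExp i) (a := (1 : k)) (e := a.1 i)
  rw [one_pow] at h
  rw [← h]
  congr 1
  unfold epsExp
  rw [MvPolynomial.monomial_sum_index, map_one, one_mul, Finset.prod_filter]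
  apply Finset.prod_congr rfl
  intro A _
  split_ifs
  · rfl
  · rfl

/-- The monomials with exponent vectors `genExp a` are the generators `ε ^ a` of `E_q ^ r`, and for
`q ≥ 6`, `r ≥ 5` the Scarf complex does not support a free resolution of the ideal they generate. -/
theorem result (k : Type*) [Field k] (q r : ℕ) (hq : 6 ≤ q) (hr : 5 ≤ r) :
    (∀ a : Vtx q r, MvPolynomial.monomial (genExp a) (1 : k) =
      ∏ i, (∏ A : Var q with i ∈ A.1, MvPolynomial.X A) ^ a.1 i) ∧
    ¬ SupportsResolution k (genExp (q := q) (r := r)) (scarf genExp) :=
  ⟨monomial_genExp k, main k q r hq hr⟩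

end Pool.Agent.Results.MP_0a8151_al.ScarfFails
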